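import Pool.Agent.L0h31.KQ.Defs2

/-!
Module SQ: the mean of the square root of a Wishart matrix.
-/

set_option autoImplicit false
set_option linter.all false

namespace Pool.Agent.L0h88.KQ

open MeasureTheory Pool.Agent.L0h31.KQ
open scoped ENNReal InnerProductSpace ComplexOrder

section

variable {J P α : Type} [Fintype J] [DecidableEq J] [Fintype P] [DecidableEq P] [DecidableEq α]
  (at_ : J → α) (τ : P → α)

/-- The entries. -/
noncomputable def G (g : {z : J × P // at_ z.1 = τ z.2} → ℂ) (j : J) (p : P) : ℂ :=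
  gext at_ τ g (j, p)

theorem G_pos (g : {z : J × P // at_ z.1 = τ z.2} → ℂ) (j : J) (p : P) (h : at_ j = τ p) :
    G at_ τ g j p = g ⟨(j, p), h⟩ := by
  unfold G gext
  exact dif_pos h

theorem G_neg (g : {z : J × P // at_ z.1 = τ z.2} → ℂ) (j : J) (p : P) (h : ¬ at_ j = τ p) :
    G at_ τ g j p = 0 := by
  unfold G gext
  exact dif_neg h

theorem G_cont (j : J) (p : P) : Continuous fun g => G at_ τ g j p := by
  by_cases h : at_ j = τ p
  · simp only [G_pos at_ τ _ j p h]
    exact continuous_apply _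
  · simp only [G_neg at_ τ _ j p h]
    exact continuous_const

theorem G_le (g : {z : J × P // at_ z.1 = τ z.2} → ℂ) (j : J) (p : P) : ‖G at_ τ g j p‖ ≤ ‖g‖ := by
  by_cases h : at_ j = τ p
  · rw [G_pos at_ τ _ j p h]
    exact norm_le_pi_norm g _
  · rw [G_neg at_ τ _ j p h, norm_zero]
    exact norm_nonneg _

/-- Sign changes. -/
noncomputable def fl (E : J × P → Prop) [DecidablePred E] :
    ({z : J × P // at_ z.1 = τ z.2} → ℂ) →ₗ[ℝ] ({z : J × P // at_ z.1 = τ z.2} → ℂ) where
  toFun g z := if E z.1 then - g z else g z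
  map_add' a b := by
    ext z
    simp only [Pi.add_apply]
    split_ifs
    · ring
    · rfl
  map_smul' c a := by
    ext z
    simp only [Pi.smul_apply, RingHom.id_apply]
    split_ifs
    · rw [smul_neg]
    · rfl

theorem G_fl (E : J × P → Prop) [DecidablePred E] (g : {z : J × P // at_ z.1 = τ z.2} → ℂ)
    (j : J) (p : P) : G at_ τ (fl at_ τ E g) j p =
      if E (j, p) then - G at_ τ g j p else G at_ τ g j p := by
  by_cases h : at_ j = τ p
  · rw [G_pos at_ τ _ j p h, G_pos at_ τ _ j p h]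
    rfl
  · rw [G_neg at_ τ _ j p h, G_neg at_ τ _ j p h]
    simp

theorem odd_zero (h4 : S_GAU4) (E : J × P → Prop) [DecidablePred E]
    (f : ({z : J × P // at_ z.1 = τ z.2} → ℂ) → ℂ) (hf : Continuous f)
    (h : ∀ g, f (fl at_ τ E g) = - f g) : ∫ g, f g ∂(gau {z : J × P // at_ z.1 = τ z.2}) = 0 := by
  have hL := h4 {z : J × P // at_ z.1 = τ z.2} (fl at_ τ E) (by
    intro g
    refine Finset.sum_congr rfl fun z _ => ?_
    show ‖(if E z.1 then - g z else g z)‖ ^ 2 = _
    split_ifs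
    · rw [norm_neg]
    · rfl)
  have h1 : ∫ g, f g ∂(gau {z : J × P // at_ z.1 = τ z.2}) =
      ∫ g, f (fl at_ τ E g) ∂(gau {z : J × P // at_ z.1 = τ z.2}) := by
    conv_lhs => rw [← hL]
    rw [integral_map]
    · exact (LinearMap.continuous_of_finiteDimensional _).measurable.aemeasurable
    · exact hf.aestronglyMeasurable
  simp only [h] at h1
  rw [integral_neg] at h1
  exact self_eq_neg.mp h1

/-- The indicator of equal labels. -/
noncomputable def bb (j : J) (p : P) : ℝ := if at_ j = τ p then 1 else 0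

theorem int2 (h3 : S_GAU3) (j : J) (p : P) :
    ∫ g, ‖G at_ τ g j p‖ ^ 2 ∂(gau {z : J × P // at_ z.1 = τ z.2}) = bb at_ τ j p := by
  unfold bb
  by_cases h : at_ j = τ p
  · simp only [G_pos at_ τ _ j p h]
    rw [(h3 {z : J × P // at_ z.1 = τ z.2}).2.1, if_pos h]
  · simp only [G_neg at_ τ _ j p h]
    rw [if_neg h]
    simp

theorem int4 (h3 : S_GAU3) (j l : J) (p p' : P) :
    ∫ g, ‖G at_ τ g j p‖ ^ 2 * ‖G at_ τ g l p'‖ ^ 2 ∂(gau {z : J × P // at_ z.1 = τ z.2}) =
      bb at_ τ j p * bb at_ τ l p' * (if j = l ∧ p = p' then 2 else 1) := by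
  unfold bb
  by_cases h : at_ j = τ p
  · by_cases h' : at_ l = τ p'
    · simp only [G_pos at_ τ _ j p h, G_pos at_ τ _ l p' h']
      rw [(h3 {z : J × P // at_ z.1 = τ z.2}).2.2, if_pos h, if_pos h', one_mul, one_mul]
      simp only [Subtype.mk.injEq, Prod.mk.injEq]
    · simp only [G_neg at_ τ _ l p' h']
      rw [if_neg h']
      simp
  · simp only [G_neg at_ τ _ j p h]
    rw [if_neg h]
    simp

theorem integrable_of (h3 : S_GAU3) (f : ({z : J × P // at_ z.1 = τ z.2} → ℂ) → ℂ)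
    (hf : Continuous f) (C : ℝ) (k : ℕ) (hb : ∀ g, ‖f g‖ ≤ C * ‖g‖ ^ k) :
    Integrable f (gau {z : J × P // at_ z.1 = τ z.2}) :=
  (((h3 {z : J × P // at_ z.1 = τ z.2}).1 k).const_mul C).mono' hf.aestronglyMeasurable
    (Filter.Eventually.of_forall hb)

theorem c2 (j j' : J) (p : P) :
    Continuous fun g => G at_ τ g j p * star (G at_ τ g j' p) :=
  (G_cont at_ τ j p).mul (G_cont at_ τ j' p).star

theorem i2 (h3 : S_GAU3) (j j' : J) (p : P) :
    Integrable (fun g => G at_ τ g j p * star (G at_ τ g j' p))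
      (gau {z : J × P // at_ z.1 = τ z.2}) := by
  refine integrable_of at_ τ h3 _ (c2 at_ τ j j' p) 1 2 fun g => ?_
  rw [norm_mul, norm_star, one_mul, sq]
  exact mul_le_mul (G_le at_ τ g j p) (G_le at_ τ g j' p) (norm_nonneg _) (norm_nonneg _)

theorem e2 (h3 : S_GAU3) (h4 : S_GAU4) (j j' : J) (p : P) :
    ∫ g, G at_ τ g j p * star (G at_ τ g j' p) ∂(gau {z : J × P // at_ z.1 = τ z.2}) =
      if j = j' then (bb at_ τ j p : ℂ) else 0 := by
  split_ifs with h
  · subst h
    rw [← int2 at_ τ h3 j p, ← integral_complex_ofReal]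
    refine integral_congr_ae (Filter.Eventually.of_forall fun g => ?_)
    show G at_ τ g j p * star (G at_ τ g j p) = ((‖G at_ τ g j p‖ ^ 2 : ℝ) : ℂ)
    rw [Complex.star_def, Complex.mul_conj, Complex.normSq_eq_norm_sq]
  · refine odd_zero at_ τ h4 (fun z => z.1 = j) _ (c2 at_ τ j j' p) fun g => ?_
    rw [G_fl, G_fl, if_pos rfl, if_neg (fun h' : j' = j => h h'.symm)]
    ring

theorem c4 (j l j' : J) (p p' : P) :
    Continuous fun g => (G at_ τ g j p * star (G at_ τ g l p)) *
      (G at_ τ g l p' * star (G at_ τ g j' p')) :=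
  (c2 at_ τ j l p).mul (c2 at_ τ l j' p')

theorem i4 (h3 : S_GAU3) (j l j' : J) (p p' : P) :
    Integrable (fun g => (G at_ τ g j p * star (G at_ τ g l p)) *
      (G at_ τ g l p' * star (G at_ τ g j' p'))) (gau {z : J × P // at_ z.1 = τ z.2}) := by
  refine integrable_of at_ τ h3 _ (c4 at_ τ j l j' p p') 1 4 fun g => ?_
  rw [norm_mul, norm_mul, norm_mul, norm_star, norm_star, one_mul]
  have h1 : ‖G at_ τ g j p‖ * ‖G at_ τ g l p‖ ≤ ‖g‖ * ‖g‖ :=
    mul_le_mul (G_le at_ τ g j p) (G_le at_ τ g l p) (norm_nonneg _) (norm_nonneg _)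
  have h2 : ‖G at_ τ g l p'‖ * ‖G at_ τ g j' p'‖ ≤ ‖g‖ * ‖g‖ :=
    mul_le_mul (G_le at_ τ g l p') (G_le at_ τ g j' p') (norm_nonneg _) (norm_nonneg _)
  have h3 := mul_le_mul h1 h2 (by positivity) (by positivity)
  refine h3.trans (le_of_eq ?_)
  ring

/-- The value of the fourth moments. -/
noncomputable def V (j l : J) (p p' : P) : ℝ :=
  if j = l then bb at_ τ j p * bb at_ τ j p' * (if p = p' then 2 else 1)
  else if p = p' then bb at_ τ j p * bb at_ τ l p else 0

theorem e4 (h3 : S_GAU3) (h4 : S_GAU4) (j l j' : J) (p p' : P) :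
    ∫ g, (G at_ τ g j p * star (G at_ τ g l p)) * (G at_ τ g l p' * star (G at_ τ g j' p'))
      ∂(gau {z : J × P // at_ z.1 = τ z.2}) =
      if j = j' then (V at_ τ j l p p' : ℂ) else 0 := by
  split_ifs with h
  · subst h
    unfold V
    by_cases hl : j = l
    · subst hl
      rw [if_pos rfl]
      have h1 := int4 at_ τ h3 j j p p'
      have h2 : (if j = j ∧ p = p' then (2 : ℝ) else 1) = if p = p' then 2 else 1 := by
        simp
      rw [h2] at h1
      rw [← h1, ← integral_complex_ofReal]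
      refine integral_congr_ae (Filter.Eventually.of_forall fun g => ?_)
      show (G at_ τ g j p * star (G at_ τ g j p)) * (G at_ τ g j p' * star (G at_ τ g j p')) =
        ((‖G at_ τ g j p‖ ^ 2 * ‖G at_ τ g j p'‖ ^ 2 : ℝ) : ℂ)
      rw [Complex.star_def, Complex.mul_conj, Complex.normSq_eq_norm_sq, Complex.mul_conj,
        Complex.normSq_eq_norm_sq, Complex.ofReal_mul]
    · rw [if_neg hl]
      by_cases hp : p = p'
      · subst hp
        rw [if_pos rfl]
        have h1 := int4 at_ τ h3 j l p p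
        rw [if_neg (fun h' => hl h'.1), mul_one] at h1
        rw [← h1, ← integral_complex_ofReal]
        refine integral_congr_ae (Filter.Eventually.of_forall fun g => ?_)
        show (G at_ τ g j p * star (G at_ τ g l p)) * (G at_ τ g l p * star (G at_ τ g j p)) =
          ((‖G at_ τ g j p‖ ^ 2 * ‖G at_ τ g l p‖ ^ 2 : ℝ) : ℂ)
        have e1 : (G at_ τ g j p * star (G at_ τ g l p)) * (G at_ τ g l p * star (G at_ τ g j p)) =
          (G at_ τ g j p * star (G at_ τ g j p)) * (G at_ τ g l p * star (G at_ τ g l p)) := by ring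
        rw [e1, Complex.star_def, Complex.mul_conj, Complex.normSq_eq_norm_sq,
          Complex.mul_conj, Complex.normSq_eq_norm_sq, Complex.ofReal_mul]
      · rw [if_neg hp, Complex.ofReal_zero]
        refine odd_zero at_ τ h4 (fun z => z = (j, p)) _ (c4 at_ τ j l j p p') fun g => ?_
        rw [G_fl, G_fl, G_fl, G_fl, if_pos rfl, if_neg, if_neg, if_neg]
        · ring
        · intro h'
          exact hp (Prod.mk.inj h').2.symm
        · intro h'
          exact hp (Prod.mk.inj h').2.symm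
        · intro h'
          exact hl (Prod.mk.inj h').1.symm
  · refine odd_zero at_ τ h4 (fun z => z.1 = j) _ (c4 at_ τ j l j' p p') fun g => ?_
    rw [G_fl, G_fl, G_fl, G_fl, if_pos rfl, if_neg (fun h' : j' = j => h h'.symm)]
    by_cases hl : l = j
    · rw [if_pos hl, if_pos hl]
      simp only [star_neg]
      ring
    · rw [if_neg hl, if_neg hl]
      ring

theorem wis_eq (g : {z : J × P // at_ z.1 = τ z.2} → ℂ) (j j' : J) :
    wis at_ τ g j j' = ∑ p, G at_ τ g j p * star (G at_ τ g j' p) := rfl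

/-- The number of the columns. -/
noncomputable def NN (j : J) : ℝ := ∑ p, bb at_ τ j p

/-- The number of the rows. -/
noncomputable def nn (j : J) : ℝ := ∑ l, if at_ l = at_ j then 1 else 0

theorem iS (h3 : S_GAU3) (j j' : J) :
    Integrable (fun g => wis at_ τ g j j') (gau {z : J × P // at_ z.1 = τ z.2}) := by
  simp only [wis_eq]
  exact integrable_finset_sum _ fun p _ => i2 at_ τ h3 j j' p

theorem eS (h3 : S_GAU3) (h4 : S_GAU4) (j j' : J) :
    ∫ g, wis at_ τ g j j' ∂(gau {z : J × P // at_ z.1 = τ z.2}) =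
      if j = j' then (NN at_ τ j : ℂ) else 0 := by
  simp only [wis_eq]
  rw [integral_finset_sum _ fun p _ => i2 at_ τ h3 j j' p]
  simp only [e2 at_ τ h3 h4]
  split_ifs with h
  · unfold NN
    rw [Complex.ofReal_sum]
  · rw [Finset.sum_const_zero]

theorem SS_eq (g : {z : J × P // at_ z.1 = τ z.2} → ℂ) (j j' : J) :
    (wis at_ τ g * wis at_ τ g) j j' = ∑ l, ∑ p, ∑ p', (G at_ τ g j p * star (G at_ τ g l p)) *
      (G at_ τ g l p' * star (G at_ τ g j' p')) := by
  rw [Matrix.mul_apply]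
  refine Finset.sum_congr rfl fun l _ => ?_
  rw [wis_eq, wis_eq, Finset.sum_mul_sum]

theorem iSS (h3 : S_GAU3) (j j' : J) :
    Integrable (fun g => (wis at_ τ g * wis at_ τ g) j j')
      (gau {z : J × P // at_ z.1 = τ z.2}) := by
  simp only [SS_eq]
  exact integrable_finset_sum _ fun l _ => integrable_finset_sum _ fun p _ =>
    integrable_finset_sum _ fun p' _ => i4 at_ τ h3 j l j' p p'

theorem bb_sq (j : J) (p : P) : bb at_ τ j p * bb at_ τ j p = bb at_ τ j p := by
  unfold bb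
  split_ifs <;> norm_num

theorem sum_V (j : J) : ∑ l, ∑ p, ∑ p', V at_ τ j l p p' = NN at_ τ j ^ 2 + nn at_ j * NN at_ τ j := by
  have h1 : ∀ l, ∑ p, ∑ p', V at_ τ j l p p' = (if j = l then NN at_ τ j ^ 2 else 0) +
      (if at_ l = at_ j then 1 else 0) * NN at_ τ j := by
    intro l
    by_cases hl : j = l
    · subst hl
      rw [if_pos rfl, if_pos rfl, one_mul]
      have h2 : ∀ p p', V at_ τ j j p p' = bb at_ τ j p * bb at_ τ j p' +
          if p = p' then bb at_ τ j p else 0 := by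
        intro p p'
        unfold V
        rw [if_pos rfl]
        by_cases hp : p = p'
        · subst hp
          rw [if_pos rfl, if_pos rfl, bb_sq]
          ring
        · rw [if_neg hp, if_neg hp]
          ring
      simp only [h2, Finset.sum_add_distrib, Finset.sum_ite_eq, Finset.mem_univ, if_true]
      unfold NN
      rw [sq, Finset.sum_mul_sum]
    · rw [if_neg hl, zero_add]
      have h2 : ∀ p p', V at_ τ j l p p' = if p = p' then bb at_ τ j p * bb at_ τ l p else 0 := by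
        intro p p'
        unfold V
        rw [if_neg hl]
      simp only [h2, Finset.sum_ite_eq, Finset.mem_univ, if_true]
      unfold NN
      rw [Finset.mul_sum]
      refine Finset.sum_congr rfl fun p _ => ?_
      unfold bb
      by_cases h3 : at_ l = at_ j
      · rw [h3, if_pos rfl]
        split_ifs <;> norm_num
      · rw [if_neg h3]
        by_cases h4 : at_ j = τ p
        · rw [if_pos h4, if_neg (fun h5 => h3 (h5.trans h4.symm))]
          norm_num
        · rw [if_neg h4]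
          norm_num
  simp only [h1]
  rw [Finset.sum_add_distrib, Finset.sum_ite_eq, if_pos (Finset.mem_univ _), ← Finset.sum_mul]
  rfl

theorem eSS (h3 : S_GAU3) (h4 : S_GAU4) (j j' : J) :
    ∫ g, (wis at_ τ g * wis at_ τ g) j j' ∂(gau {z : J × P // at_ z.1 = τ z.2}) =
      if j = j' then ((NN at_ τ j ^ 2 + nn at_ j * NN at_ τ j : ℝ) : ℂ) else 0 := by
  simp only [SS_eq]
  rw [integral_finset_sum _ fun l _ => integrable_finset_sum _ fun p _ =>
    integrable_finset_sum _ fun p' _ => i4 at_ τ h3 j l j' p p']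
  have h5 : ∀ l, ∫ g, ∑ p, ∑ p', (G at_ τ g j p * star (G at_ τ g l p)) *
      (G at_ τ g l p' * star (G at_ τ g j' p')) ∂(gau {z : J × P // at_ z.1 = τ z.2}) =
      ∑ p, ∑ p', if j = j' then (V at_ τ j l p p' : ℂ) else 0 := by
    intro l
    rw [integral_finset_sum _ fun p _ =>
      integrable_finset_sum _ fun p' _ => i4 at_ τ h3 j l j' p p']
    refine Finset.sum_congr rfl fun p _ => ?_
    rw [integral_finset_sum _ fun p' _ => i4 at_ τ h3 j l j' p p']
    exact Finset.sum_congr rfl fun p' _ => e4 at_ τ h3 h4 j l j' p p'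
  simp only [h5]
  split_ifs with h
  · rw [← sum_V]
    simp only [Complex.ofReal_sum]
  · simp

end

theorem psd_ineq {J : Type} [Fintype J] [DecidableEq J] (R : Matrix J J ℂ) (hR : R.PosSemidef)
    (s : ℝ) (hs : 0 ≤ s) (v : J → ℂ) :
    0 ≤ (∑ j, ∑ j', star (v j) * ((2 * (s : ℂ) ^ 3) • R - (3 * (s : ℂ) ^ 2) • (R * R) +
      (R * R) * (R * R)) j j' * v j').re := by
  set T : Matrix J J ℂ := R - (s : ℂ) • (1 : Matrix J J ℂ) with hT
  have hTh : T.conjTranspose = T := by
    rw [hT, Matrix.conjTranspose_sub, Matrix.conjTranspose_smul, Matrix.conjTranspose_one,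
      hR.isHermitian.eq, Complex.star_def, Complex.conj_ofReal]
  have h1 : (R * R + (2 * (s : ℂ)) • R).PosSemidef := by
    refine Matrix.PosSemidef.add ?_ (hR.smul ?_)
    · have h2 := Matrix.posSemidef_conjTranspose_mul_self R
      rwa [hR.isHermitian.eq] at h2
    · have h3 : (2 * (s : ℂ)) = ((2 * s : ℝ) : ℂ) := by push_cast; ring
      rw [h3]
      exact Complex.zero_le_real.mpr (by positivity)
  have h2 := (h1.conjTranspose_mul_mul_same T).dotProduct_mulVec_nonneg v
  rw [hTh] at h2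
  have h3 : T * (R * R + (2 * (s : ℂ)) • R) * T = (2 * (s : ℂ) ^ 3) • R -
      (3 * (s : ℂ) ^ 2) • (R * R) + (R * R) * (R * R) := by
    rw [hT]
    simp only [sub_mul, mul_sub, add_mul, mul_add, smul_mul_assoc, mul_smul_comm, one_mul, mul_one,
      smul_smul, mul_assoc, smul_add, smul_sub]
    module
  rw [h3] at h2
  have h4 := (Complex.le_def.mp h2).1
  refine h4.trans (le_of_eq ?_)
  congr 1
  unfold dotProduct Matrix.mulVec dotProduct
  refine Finset.sum_congr rfl fun j _ => ?_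
  rw [Finset.mul_sum]
  refine Finset.sum_congr rfl fun j' _ => ?_
  rw [← mul_assoc]
  rfl

section

variable {J P α : Type} [Fintype J] [DecidableEq J] [Fintype P] [DecidableEq P] [DecidableEq α]
  (at_ : J → α) (τ : P → α)

theorem R_le (g : {z : J × P // at_ z.1 = τ z.2} → ℂ) (R : Matrix J J ℂ) (hR : R.PosSemidef)
    (hS : R * R = wis at_ τ g) (j j' : J) :
    ‖R j j'‖ ≤ 1 * ‖g‖ ^ 0 + (Fintype.card P : ℝ) * ‖g‖ ^ 2 := by
  have h1 : ((∑ l, ‖R j l‖ ^ 2 : ℝ) : ℂ) = wis at_ τ g j j := by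
    rw [← hS, Matrix.mul_apply, Complex.ofReal_sum]
    refine Finset.sum_congr rfl fun l _ => ?_
    rw [← hR.isHermitian.apply l j, Complex.star_def, Complex.mul_conj, Complex.normSq_eq_norm_sq]
  have h2 : ‖wis at_ τ g j j‖ ≤ (Fintype.card P : ℝ) * ‖g‖ ^ 2 := by
    rw [wis_eq]
    refine (norm_sum_le _ _).trans ?_
    refine (Finset.sum_le_sum (g := fun _ => ‖g‖ ^ 2) fun p _ => ?_).trans ?_
    · rw [norm_mul, norm_star, sq]
      exact mul_le_mul (G_le at_ τ g j p) (G_le at_ τ g j p) (norm_nonneg _) (norm_nonneg _)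
    · rw [Finset.sum_const, nsmul_eq_mul, Finset.card_univ]
  rw [← h1, Complex.norm_real, Real.norm_of_nonneg (Finset.sum_nonneg fun _ _ => by positivity)]
    at h2
  have h3 : ‖R j j'‖ ^ 2 ≤ ∑ l, ‖R j l‖ ^ 2 :=
    Finset.single_le_sum (f := fun l => ‖R j l‖ ^ 2) (fun _ _ => by positivity)
      (Finset.mem_univ j')
  rw [pow_zero, mul_one]
  nlinarith [norm_nonneg (R j j'), sq_nonneg (‖R j j'‖ - 1)]

theorem iR (h3 : S_GAU3) (R : ({z : J × P // at_ z.1 = τ z.2} → ℂ) → Matrix J J ℂ)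
    (hm : ∀ j j', Measurable fun g => R g j j')
    (hR : ∀ᵐ g ∂(gau {z : J × P // at_ z.1 = τ z.2}), (R g).PosSemidef ∧ R g * R g = wis at_ τ g)
    (j j' : J) : Integrable (fun g => R g j j') (gau {z : J × P // at_ z.1 = τ z.2}) := by
  refine ((((h3 {z : J × P // at_ z.1 = τ z.2}).1 0).const_mul 1).add
    (((h3 {z : J × P // at_ z.1 = τ z.2}).1 2).const_mul (Fintype.card P : ℝ))).mono'
    (hm j j').aestronglyMeasurable ?_
  filter_upwards [hR] with g hg
  exact R_le at_ τ g (R g) hg.1 hg.2 j j'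

/-- The integral of a quadratic form. -/
theorem int_q {Ω : Type} [MeasurableSpace Ω] (μ : Measure Ω) (F : Ω → Matrix J J ℂ)
    (hF : ∀ j j', Integrable (fun ω => F ω j j') μ) (v : J → ℂ) :
    Integrable (fun ω => ∑ j, ∑ j', star (v j) * F ω j j' * v j') μ ∧
    ∫ ω, ∑ j, ∑ j', star (v j) * F ω j j' * v j' ∂μ =
      ∑ j, ∑ j', star (v j) * (∫ ω, F ω j j' ∂μ) * v j' := by
  have h1 : ∀ j j', Integrable (fun ω => star (v j) * F ω j j' * v j') μ := fun j j' =>
    ((hF j j').const_mul _).mul_const _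
  refine ⟨integrable_finset_sum _ fun j _ => integrable_finset_sum _ fun j' _ => h1 j j', ?_⟩
  rw [integral_finset_sum _ fun j _ => integrable_finset_sum _ fun j' _ => h1 j j']
  refine Finset.sum_congr rfl fun j _ => ?_
  rw [integral_finset_sum _ fun j' _ => h1 j j']
  refine Finset.sum_congr rfl fun j' _ => ?_
  rw [integral_mul_const, integral_const_mul]

/-- A quadratic form with a diagonal matrix. -/
theorem diag_q (v : J → ℂ) (c : J → ℝ) (N : ℝ) (hc : ∀ j, v j ≠ 0 → c j = N) :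
    (∑ j, ∑ j', star (v j) * (if j = j' then (c j : ℂ) else 0) * v j').re =
      N * ∑ j, ‖v j‖ ^ 2 := by
  rw [Finset.mul_sum, Complex.re_sum]
  refine Finset.sum_congr rfl fun j _ => ?_
  have h1 : ∀ j', star (v j) * (if j = j' then (c j : ℂ) else 0) * v j' =
      if j = j' then star (v j) * c j * v j' else 0 := by
    intro j'
    split_ifs
    · rfl
    · rw [mul_zero, zero_mul]
  simp only [h1]
  rw [Finset.sum_ite_eq, if_pos (Finset.mem_univ _)]
  by_cases hv : v j = 0
  · rw [hv]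
    simp
  · rw [hc j hv, Complex.star_def, mul_right_comm, mul_comm ((starRingEnd ℂ) (v j)),
      Complex.mul_conj, Complex.normSq_eq_norm_sq, ← Complex.ofReal_mul, Complex.ofReal_re,
      mul_comm]

end

theorem three {Ω : Type} [MeasurableSpace Ω] (μ : Measure Ω) (a b c : Ω → ℂ) (x y : ℝ)
    (ia : Integrable a μ) (ib : Integrable b μ) (ic : Integrable c μ)
    (h : ∀ᵐ ω ∂μ, 0 ≤ ((x : ℂ) * a ω - (y : ℂ) * b ω + c ω).re) :
    0 ≤ x * (∫ ω, a ω ∂μ).re - y * (∫ ω, b ω ∂μ).re + (∫ ω, c ω ∂μ).re := by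
  have ra : ∫ ω, (a ω).re ∂μ = (∫ ω, a ω ∂μ).re := Complex.reCLM.integral_comp_comm ia
  have rb : ∫ ω, (b ω).re ∂μ = (∫ ω, b ω ∂μ).re := Complex.reCLM.integral_comp_comm ib
  have rc : ∫ ω, (c ω).re ∂μ = (∫ ω, c ω ∂μ).re := Complex.reCLM.integral_comp_comm ic
  have ja : Integrable (fun ω => x * (a ω).re) μ := (Complex.reCLM.integrable_comp ia).const_mul x
  have jb : Integrable (fun ω => y * (b ω).re) μ := (Complex.reCLM.integrable_comp ib).const_mul y
  have jc : Integrable (fun ω => (c ω).re) μ := Complex.reCLM.integrable_comp ic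
  have jd : Integrable (fun ω => x * (a ω).re - y * (b ω).re) μ := ja.sub jb
  rw [← ra, ← rb, ← rc, ← integral_const_mul, ← integral_const_mul, ← integral_sub ja jb,
    ← integral_add jd jc]
  refine integral_nonneg_of_ae ?_
  filter_upwards [h] with ω hω
  rw [Complex.add_re, Complex.sub_re, Complex.re_ofReal_mul, Complex.re_ofReal_mul] at hω
  exact hω

theorem sq (h3 : S_GAU3) (h4 : S_GAU4) : S_SQ := by
  intro J P α _ _ _ _ _ at_ τ R hm hR a ha v hv
  have hiR := iR at_ τ h3 R hm hR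
  refine ⟨hiR, ?_⟩
  set N : ℕ := Fintype.card {p // τ p = a} with hN
  set n : ℕ := Fintype.card {j // at_ j = a} with hn
  by_cases hv0 : ∀ j, v j = 0
  · simp only [hv0]
    simp
  obtain ⟨j₀, hj₀⟩ := not_forall.mp hv0
  have hn0 : 0 < n := by
    rw [hn]
    exact Fintype.card_pos_iff.mpr ⟨⟨j₀, hv j₀ hj₀⟩⟩
  have hN0 : 0 < N := lt_of_lt_of_le hn0 ha
  have hNr : (0 : ℝ) < N := by exact_mod_cast hN0
  have hnN : (n : ℝ) ≤ N := by exact_mod_cast ha
  set s := Real.sqrt N with hs
  have hs0 : 0 < s := Real.sqrt_pos.mpr hNr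
  have hs2 : s ^ 2 = N := Real.sq_sqrt hNr.le
  have hNN : ∀ j, v j ≠ 0 → NN at_ τ j = N := by
    intro j hj
    unfold NN bb
    rw [hv j hj, hN, Fintype.card_subtype, Finset.sum_boole]
    congr 2
    ext p
    simp only [Finset.mem_filter]
    exact ⟨fun h => ⟨h.1, h.2.symm⟩, fun h => ⟨h.1, h.2.symm⟩⟩
  have hnn : ∀ j, v j ≠ 0 → nn at_ j = n := by
    intro j hj
    unfold nn
    rw [hv j hj, hn, Fintype.card_subtype, Finset.sum_boole]
  have q1 := int_q (gau {z : J × P // at_ z.1 = τ z.2}) R hiR v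
  have q2 := int_q (gau {z : J × P // at_ z.1 = τ z.2}) (fun g => wis at_ τ g) (iS at_ τ h3) v
  have q3 := int_q (gau {z : J × P // at_ z.1 = τ z.2}) (fun g => wis at_ τ g * wis at_ τ g)
    (iSS at_ τ h3) v
  simp only [eS at_ τ h3 h4] at q2
  simp only [eSS at_ τ h3 h4] at q3
  have hpos := three (gau {z : J × P // at_ z.1 = τ z.2}) _ _ _ (2 * s ^ 3) (3 * s ^ 2)
    q1.1 q2.1 q3.1 (by
    filter_upwards [hR] with g hg
    have h1 := psd_ineq (R g) hg.1 s hs0.le v
    rw [hg.2] at h1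
    refine h1.trans (le_of_eq ?_)
    congr 1
    rw [Finset.mul_sum, Finset.mul_sum, ← Finset.sum_sub_distrib, ← Finset.sum_add_distrib]
    refine Finset.sum_congr rfl fun j _ => ?_
    rw [Finset.mul_sum, Finset.mul_sum, ← Finset.sum_sub_distrib, ← Finset.sum_add_distrib]
    refine Finset.sum_congr rfl fun j' _ => ?_
    simp only [Matrix.add_apply, Matrix.sub_apply, Matrix.smul_apply, smul_eq_mul]
    push_cast
    ring)
  rw [q1.2, q2.2, q3.2] at hpos
  have hd2 := diag_q v (NN at_ τ) N hNN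
  have hd3 := diag_q v (fun j => NN at_ τ j ^ 2 + nn at_ j * NN at_ τ j) (N ^ 2 + n * N)
    (fun j hj => by rw [hNN j hj, hnn j hj])
  have hpos' : 0 ≤ (2 * s ^ 3) * (∑ j, ∑ j', star (v j) *
      (∫ g, R g j j' ∂(gau {z : J × P // at_ z.1 = τ z.2})) * v j').re -
      (3 * s ^ 2) * (N * ∑ j, ‖v j‖ ^ 2) + (N ^ 2 + n * N) * ∑ j, ‖v j‖ ^ 2 := by
    rw [← hd2, ← hd3]
    exact hpos
  set Y := (∑ j, ∑ j', star (v j) *
      (∫ g, R g j j' ∂(gau {z : J × P // at_ z.1 = τ z.2})) * v j').re with hY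
  set W := ∑ j, ‖v j‖ ^ 2 with hW
  have hW0 : 0 ≤ W := Finset.sum_nonneg fun _ _ => by positivity
  have h5 : (N ^ 2 + n * N : ℝ) * W ≤ 2 * N ^ 2 * W := by
    refine mul_le_mul_of_nonneg_right ?_ hW0
    nlinarith
  have h6 : (N : ℝ) ^ 2 * W ≤ 2 * s ^ 3 * Y := by
    rw [hs2] at hpos'
    nlinarith
  have h7 : s ^ 3 * (s * W) ≤ s ^ 3 * (2 * Y) := by
    have h8 : s ^ 3 * (s * W) = (s ^ 2) ^ 2 * W := by ring
    rw [h8, hs2]
    linarith
  have h9 := le_of_mul_le_mul_left h7 (by positivity)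
  linarith

end Pool.Agent.L0h88.KQ
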